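import Pool.Agent.Y690.PP.Stm

/-! # Project PP (helper690), job PP-MULT: the symbols are multiplicative and periodic -/

set_option autoImplicit false

namespace Pool.Agent.Y508.PP

open Pool.Agent.Y690.PP

/-- the modulus `2 + 2 i` -/
abbrev f2 : G := ⟨2, 2⟩

theorem norm_dvd (p : G) : p ∣ ((nm p : ℕ) : G) := by
  have h1 : (p.norm : G) = p * star p := Zsqrtd.norm_eq_mul_conj p
  have h2 : (0 : ℤ) ≤ p.norm := GaussianInt.norm_nonneg p
  have h3 : ((nm p : ℕ) : G) = ((p.norm : ℤ) : G) := by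
    unfold nm
    rw [← Int.cast_natCast, Int.natAbs_of_nonneg h2]
  rw [h3, h1]
  exact Dvd.intro _ rfl

theorem finite_quot (p : G) (hp : p ≠ 0) : Finite (G ⧸ Ideal.span ({p} : Set G)) := by
  have hn : 0 < nm p := by
    unfold nm
    exact Int.natAbs_pos.2 (by
      have := GaussianInt.norm_pos.2 hp
      omega)
  refine Finite.of_surjective (fun ab : Fin (nm p) × Fin (nm p) =>
    Ideal.Quotient.mk (Ideal.span ({p} : Set G)) (⟨(ab.1.1 : ℤ), (ab.2.1 : ℤ)⟩ : G)) ?_
  intro q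
  obtain ⟨v, rfl⟩ := Ideal.Quotient.mk_surjective q
  have hnz : ((nm p : ℕ) : ℤ) ≠ 0 := by exact_mod_cast hn.ne'
  have h1 := Int.emod_nonneg v.re hnz
  have h2 := Int.emod_nonneg v.im hnz
  have h3 := Int.emod_lt_of_pos v.re (by exact_mod_cast hn : (0 : ℤ) < ((nm p : ℕ) : ℤ))
  have h4 := Int.emod_lt_of_pos v.im (by exact_mod_cast hn : (0 : ℤ) < ((nm p : ℕ) : ℤ))
  refine ⟨(⟨(v.re % (nm p : ℤ)).toNat, by omega⟩, ⟨(v.im % (nm p : ℤ)).toNat, by omega⟩), ?_⟩
  rw [Ideal.Quotient.mk_eq_mk_iff_sub_mem, Ideal.mem_span_singleton]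
  refine (norm_dvd p).trans ⟨⟨-(v.re / (nm p : ℤ)), -(v.im / (nm p : ℤ))⟩, ?_⟩
  have h5 := Int.emod_add_mul_ediv v.re (nm p : ℤ)
  have h6 := Int.emod_add_mul_ediv v.im (nm p : ℤ)
  ext
  · simp only [Zsqrtd.re_sub, Zsqrtd.re_mul, Zsqrtd.re_natCast, Zsqrtd.im_natCast]
    rw [Int.toNat_of_nonneg h1]
    linarith
  · simp only [Zsqrtd.im_sub, Zsqrtd.im_mul, Zsqrtd.re_natCast, Zsqrtd.im_natCast]
    rw [Int.toNat_of_nonneg h2]
    linarith

theorem qs_mul (p : G) (hp : Prime p) (v w : G) : qs p (v * w) = qs p v * qs p w := by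
  classical
  haveI : (Ideal.span ({p} : Set G)).IsMaximal :=
    PrincipalIdealRing.isMaximal_of_irreducible hp.irreducible
  letI : Field (G ⧸ Ideal.span ({p} : Set G)) := Ideal.Quotient.field _
  haveI := finite_quot p hp.ne_zero
  letI : Fintype (G ⧸ Ideal.span ({p} : Set G)) := Fintype.ofFinite _
  have key : ∀ a : G, qs p a
      = quadraticChar (G ⧸ Ideal.span ({p} : Set G)) (Ideal.Quotient.mk _ a) := by
    intro a
    unfold qs
    by_cases h : p ∣ a
    · have h0 : Ideal.Quotient.mk (Ideal.span ({p} : Set G)) a = 0 := by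
        rw [Ideal.Quotient.eq_zero_iff_mem, Ideal.mem_span_singleton]; exact h
      rw [if_pos h, h0, MulChar.map_zero]
    · have h0 : Ideal.Quotient.mk (Ideal.span ({p} : Set G)) a ≠ 0 := by
        rw [Ne, Ideal.Quotient.eq_zero_iff_mem, Ideal.mem_span_singleton]; exact h
      rw [if_neg h]
      have hs : (∃ b : G, p ∣ b * b - a) ↔
          IsSquare (Ideal.Quotient.mk (Ideal.span ({p} : Set G)) a) := by
        constructor
        · rintro ⟨b, hb⟩
          refine ⟨Ideal.Quotient.mk _ b, ?_⟩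
          rw [← map_mul, eq_comm, Ideal.Quotient.mk_eq_mk_iff_sub_mem, Ideal.mem_span_singleton]
          exact hb
        · rintro ⟨r, hr⟩
          obtain ⟨b, rfl⟩ := Ideal.Quotient.mk_surjective r
          refine ⟨b, ?_⟩
          rw [← map_mul, eq_comm, Ideal.Quotient.mk_eq_mk_iff_sub_mem,
            Ideal.mem_span_singleton] at hr
          exact hr
      by_cases hsq : ∃ b : G, p ∣ b * b - a
      · rw [if_pos hsq]
        exact ((quadraticChar_one_iff_isSquare h0).2 (hs.1 hsq)).symm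
      · rw [if_neg hsq]
        rcases quadraticChar_dichotomy h0 with h1 | h1
        · exact absurd (hs.2 ((quadraticChar_one_iff_isSquare h0).1 h1)) hsq
        · exact h1.symm
  rw [key, key, key, map_mul, map_mul]

theorem qs_congr (p v w : G) (h : p ∣ v - w) : qs p v = qs p w := by
  classical
  unfold qs
  have h1 : (p ∣ v) ↔ (p ∣ w) := by
    constructor
    · intro hv
      have := dvd_sub hv h
      simpa using this
    · intro hw
      have := dvd_add hw h
      simpa using this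
  have h2 : (∃ b : G, p ∣ b * b - v) ↔ (∃ b : G, p ∣ b * b - w) := by
    constructor
    · rintro ⟨b, hb⟩
      refine ⟨b, ?_⟩
      have := dvd_add hb h
      have e : b * b - v + (v - w) = b * b - w := by ring
      rwa [e] at this
    · rintro ⟨b, hb⟩
      refine ⟨b, ?_⟩
      have := dvd_sub hb h
      have e : b * b - w - (v - w) = b * b - v := by ring
      rwa [e] at this
  simp only [h1, h2]

theorem sg_val (z : G) : sg (1 + f2 * z) = if Even z.re then 1 else -1 := by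
  unfold sg
  by_cases h : Even z.re
  · rw [if_pos h, if_pos ⟨z.re, z.im, h, rfl⟩]
  · rw [if_neg h, if_neg]
    rintro ⟨x, y, hx, he⟩
    have h1 : f2 * z = f2 * ⟨x, y⟩ := add_left_cancel he
    have h2 : z = ⟨x, y⟩ := by
      refine mul_left_cancel₀ ?_ h1
      intro h0
      have := congrArg Zsqrtd.re h0
      simp at this
    rw [h2] at h
    exact h hx

theorem sg_mul (v w : G) (hv : Prm v) (hw : Prm w) : sg (v * w) = sg v * sg w := by
  obtain ⟨z, hz⟩ := hv
  obtain ⟨y, hy⟩ := hw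
  have e1 : v = 1 + f2 * z := by rw [← hz]; ring
  have e2 : w = 1 + f2 * y := by rw [← hy]; ring
  have e3 : v * w = 1 + f2 * (z + y + f2 * (z * y)) := by rw [e1, e2]; ring
  rw [e3, e1, e2, sg_val, sg_val, sg_val]
  have e4 : (z + y + f2 * (z * y)).re = z.re + y.re + 2 * ((z * y).re - (z * y).im) := by
    simp only [Zsqrtd.re_add, Zsqrtd.re_mul f2 (z * y)]
    ring
  have e5 : Even (z + y + f2 * (z * y)).re ↔ Even (z.re + y.re) := by
    rw [e4, Int.even_add]
    simp
  rw [if_congr e5 rfl rfl]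
  by_cases h1 : Even z.re <;> by_cases h2 : Even y.re <;> simp [Int.even_add, h1, h2]

theorem sg_congr (v w : G) (hv : Prm v) (h : (8 : G) ∣ v - w) : Prm w ∧ sg v = sg w := by
  obtain ⟨z, hz⟩ := hv
  obtain ⟨k, hk⟩ := h
  have e8 : (8 : G) = f2 * ⟨2, -2⟩ := by
    ext <;> simp <;> rfl
  have e1 : v = 1 + f2 * z := by rw [← hz]; ring
  have e2 : w = 1 + f2 * (z - ⟨2, -2⟩ * k) := by
    have : w = v - 8 * k := by rw [← hk]; ring
    rw [this, e1, e8]
    ring
  refine ⟨⟨z - ⟨2, -2⟩ * k, by rw [e2]; ring⟩, ?_⟩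
  rw [e1, e2, sg_val, sg_val]
  have e4 : (z - (⟨2, -2⟩ : G) * k).re = z.re - 2 * (k.re + k.im) := by
    simp only [Zsqrtd.re_sub, Zsqrtd.re_mul (⟨2, -2⟩ : G) k]
    ring
  have e5 : Even (z - (⟨2, -2⟩ : G) * k).re ↔ Even z.re := by
    rw [e4, Int.even_sub]
    simp
  rw [if_congr e5 rfl rfl]

theorem t_MULT : SMULT :=
  ⟨fun p hp _ v w => qs_mul p hp v w, qs_congr, sg_mul, sg_congr⟩

end Pool.Agent.Y508.PP
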